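import Pool.Agent.K4H32.FA.Psd
import Pool.Agent.K4H25.FH.Spec

/-!
Positive definiteness and contraction of the shift for the covariance of fractional Gaussian noise.
-/

namespace Pool.Agent.K4H25.FH

open Finset Pool.Agent.K4H32.FA

theorem posDef_of {g : ℤ → ℝ} (hev : ∀ j, g (-j) = g j) (hg : ∀ n : ℕ, 0 ≤ g n)
    (hφ : ∀ n : ℕ, g ((n : ℤ) + 1) ≤ g n) (hd : ∀ n : ℕ, dl g ((n : ℤ) + 1) ≤ 0)
    (hd1 : dl g 1 < 0) (N : ℕ) : (Sg g N).PosDef := by
  apply Matrix.PosDef.of_dotProduct_mulVec_pos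
  · ext i j
    simp only [Sg, Matrix.conjTranspose_apply, Matrix.of_apply, star_trivial]
    rw [← hev]; congr 1; ring
  · intro x hx
    have h := quad_ge hev hg hφ hd (fun i : Fin N => (i : ℕ)) x
    have e1 : ∑ i : Fin N, ∑ j : Fin N,
        ((1 - (((i : ℕ) : ℤ) - ((j : ℕ) : ℤ)).natAbs : ℕ) : ℝ) * (x i * x j) = ∑ i, x i ^ 2 := by
      apply sum_congr rfl
      intro i _
      rw [sum_eq_single i]
      · simp [sq]
      · intro j _ hj
        have hj' : (j : ℕ) ≠ (i : ℕ) := fun h => hj (Fin.ext h)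
        have : (1 - (((i : ℕ) : ℤ) - ((j : ℕ) : ℤ)).natAbs : ℕ) = 0 := by omega
        rw [this]; simp
      · intro h; exact absurd (mem_univ _) h
    have e2 : dotProduct (star x) ((Sg g N).mulVec x)
        = ∑ i : Fin N, ∑ j : Fin N, g (((i : ℕ) : ℤ) - ((j : ℕ) : ℤ)) * (x i * x j) := by
      simp only [dotProduct, Matrix.mulVec, Sg, Matrix.of_apply, Pi.star_apply, star_trivial,
        mul_sum]
      apply sum_congr rfl
      intro i _
      apply sum_congr rfl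
      intro j _
      ring
    rw [e2]
    rw [e1] at h
    refine lt_of_lt_of_le (mul_pos (by linarith) ?_) h
    obtain ⟨i, hi⟩ := Function.ne_iff.1 hx
    have hi' : x i ≠ 0 := hi
    exact sum_pos' (fun i _ => sq_nonneg _) ⟨i, mem_univ _, by positivity⟩

theorem contr_of {g : ℤ → ℝ} (hev : ∀ j, g (-j) = g j) (hg : ∀ n : ℕ, 0 ≤ g n)
    (hφ : ∀ n : ℕ, g ((n : ℤ) + 1) ≤ g n) (hd : ∀ n : ℕ, dl g ((n : ℤ) + 1) ≤ 0)
    (N k : ℕ) (a b : Fin N → ℝ) :
    0 ≤ dotProduct a ((Sg g N).mulVec a) + 2 * dotProduct a ((Sh g N k).mulVec b)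
      + dotProduct b ((Sg g N).mulVec b) := by
  have h := quad_ge hev hg hφ hd
    (Sum.elim (fun i : Fin N => (i : ℕ) + k) (fun i : Fin N => (i : ℕ))) (Sum.elim a b)
  have h0 : 0 ≤ (- dl g 1) * ∑ i : Fin N ⊕ Fin N, ∑ j : Fin N ⊕ Fin N,
      ((1 - (((Sum.elim (fun i : Fin N => (i : ℕ) + k) (fun i : Fin N => (i : ℕ)) i : ℕ) : ℤ)
        - ((Sum.elim (fun i : Fin N => (i : ℕ) + k) (fun i : Fin N => (i : ℕ)) j : ℕ) : ℤ)).natAbs
          : ℕ) : ℝ) * (Sum.elim a b i * Sum.elim a b j) := by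
    apply mul_nonneg
    · have := hd 0
      simp only [Nat.cast_zero, zero_add] at this
      linarith
    · obtain ⟨L, hL⟩ : ∃ L : ℕ, ∀ i, Sum.elim (fun i : Fin N => (i : ℕ) + k)
          (fun i : Fin N => (i : ℕ)) i < L := by
        refine ⟨N + k, ?_⟩
        rintro (i | i)
        · simp only [Sum.elim_inl]; have := i.2; omega
        · simp only [Sum.elim_inr]; have := i.2; omega
      rw [tri_sum L 1 _ hL]
      exact sum_nonneg fun _ _ => sq_nonneg _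
  have h1 := h0.trans h
  refine h1.trans (le_of_eq ?_)
  simp only [Fintype.sum_sum_type, Sum.elim_inl, Sum.elim_inr, sum_add_distrib]
  simp only [dotProduct, Matrix.mulVec, Sg, Sh, Matrix.of_apply, mul_sum]
  have t1 : ∑ x : Fin N, ∑ y : Fin N, g ((((x : ℕ) + k : ℕ) : ℤ) - (((y : ℕ) + k : ℕ) : ℤ)) * (a x * a y)
      = ∑ x : Fin N, ∑ y : Fin N, a x * (g (((x : ℕ) : ℤ) - ((y : ℕ) : ℤ)) * a y) := by
    apply sum_congr rfl
    intro i _
    apply sum_congr rfl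
    intro j _
    have : (((i : ℕ) + k : ℕ) : ℤ) - (((j : ℕ) + k : ℕ) : ℤ) = ((i : ℕ) : ℤ) - ((j : ℕ) : ℤ) := by
      push_cast; ring
    rw [this]; ring
  have t2 : ∑ x : Fin N, ∑ y : Fin N, g ((((x : ℕ) + k : ℕ) : ℤ) - ((y : ℕ) : ℤ)) * (a x * b y)
      = ∑ x : Fin N, ∑ y : Fin N, a x * (g (((x : ℕ) : ℤ) - ((y : ℕ) : ℤ) + (k : ℤ)) * b y) := by
    apply sum_congr rfl
    intro i _
    apply sum_congr rfl
    intro j _
    have : (((i : ℕ) + k : ℕ) : ℤ) - ((j : ℕ) : ℤ) = ((i : ℕ) : ℤ) - ((j : ℕ) : ℤ) + (k : ℤ) := by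
      push_cast; ring
    rw [this]; ring
  have t3 : ∑ x : Fin N, ∑ y : Fin N, g (((x : ℕ) : ℤ) - (((y : ℕ) + k : ℕ) : ℤ)) * (b x * a y)
      = ∑ x : Fin N, ∑ y : Fin N, a x * (g (((x : ℕ) : ℤ) - ((y : ℕ) : ℤ) + (k : ℤ)) * b y) := by
    rw [sum_comm]
    apply sum_congr rfl
    intro i _
    apply sum_congr rfl
    intro j _
    have : ((j : ℕ) : ℤ) - (((i : ℕ) + k : ℕ) : ℤ) = -(((i : ℕ) : ℤ) - ((j : ℕ) : ℤ) + (k : ℤ)) := by
      push_cast; ring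
    rw [this, hev]; ring
  have t4 : ∑ x : Fin N, ∑ y : Fin N, g (((x : ℕ) : ℤ) - ((y : ℕ) : ℤ)) * (b x * b y)
      = ∑ x : Fin N, ∑ y : Fin N, b x * (g (((x : ℕ) : ℤ) - ((y : ℕ) : ℤ)) * b y) := by
    apply sum_congr rfl
    intro i _
    apply sum_congr rfl
    intro j _
    ring
  rw [t1, t2, t3, t4]
  simp only [← mul_sum]
  ring

lemma gam_even (H : ℝ) (j : ℤ) : gam H (-j) = gam H j := by
  unfold gam
  have h1 : |((-j : ℤ) : ℝ) + 1| = |(j : ℝ) - 1| := by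
    rw [← abs_neg]; congr 1; push_cast; ring
  have h2 : |((-j : ℤ) : ℝ) - 1| = |(j : ℝ) + 1| := by
    rw [← abs_neg]; congr 1; push_cast; ring
  have h3 : |((-j : ℤ) : ℝ)| = |(j : ℝ)| := by
    rw [← abs_neg]; congr 1; push_cast; ring
  rw [h1, h2, h3]; ring

/-- positive definiteness, from the four facts of `Phi` -/
theorem posDef {H : ℝ} (hdn : ∀ {j : ℤ}, j ≠ 0 → dlt H j ≤ 0) (hphi : ∀ n : ℕ, 0 < phi H n)
    (hgam : ∀ j : ℤ, 0 ≤ gam H j) (hd1 : dlt H 1 < 0) (N : ℕ) : (Sg (gam H) N).PosDef :=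
  posDef_of (gam_even H) (fun n => hgam n)
    (fun n => by have := hphi n; unfold phi at this; linarith)
    (fun n => hdn (j := (n : ℤ) + 1) (by omega)) hd1 N

/-- contraction, from the facts of `Phi` -/
theorem contr {H : ℝ} (hdn : ∀ {j : ℤ}, j ≠ 0 → dlt H j ≤ 0) (hphi : ∀ n : ℕ, 0 < phi H n)
    (hgam : ∀ j : ℤ, 0 ≤ gam H j) (N k : ℕ) (a b : Fin N → ℝ) :
    0 ≤ dotProduct a ((Sg (gam H) N).mulVec a) + 2 * dotProduct a ((Sh (gam H) N k).mulVec b)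
      + dotProduct b ((Sg (gam H) N).mulVec b) :=
  contr_of (gam_even H) (fun n => hgam n)
    (fun n => by have := hphi n; unfold phi at this; linarith)
    (fun n => hdn (j := (n : ℤ) + 1) (by omega)) N k a b

end Pool.Agent.K4H25.FH
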