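import Pool.Agent.K4H32.FA.FHPsd
import Pool.Agent.K4H47.FHRed
import Pool.Agent.K4H30.FN.Abs
import Pool.Agent.K4H30.FN.Trace
import Pool.Agent.K4H33.FH.Phi1
import Pool.Agent.K4H61.FHKey

/-!
The trace bounds for fractional Gaussian noise with Hurst parameter between one half and one, by
reduction to the differences of the noise.
-/

namespace Pool.Agent.K4H32.FA

open Finset Matrix Pool.Agent.K4H25.FH

lemma good_dlt {H : ℝ} (h : 1 / 2 < H) (h1 : H < 1) :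
    Pool.Agent.K4H30.FNA.Good (dlt H) (phi H) 3 where
  nonpos := fun _ hj => dlt_nonpos h h1 hj
  pos := phi_pos h h1
  row := row
  key := Pool.Agent.K4H61.FH.key h h1

section

variable {N : ℕ} {S : Matrix (Fin N) (Fin N) ℝ} {u : Fin N → ℝ} {τ : ℝ}

/-- one contraction -/
lemma bound_one {K : Matrix (Fin N) (Fin N) ℝ}
    (hc : ∀ a b : Fin N → ℝ, 0 ≤ a ⬝ᵥ S *ᵥ a + 2 * (a ⬝ᵥ K *ᵥ b) + b ⬝ᵥ S *ᵥ b)
    (v w : Fin N → ℝ) : |v ⬝ᵥ K *ᵥ w| ≤ (v ⬝ᵥ S *ᵥ v + w ⬝ᵥ S *ᵥ w) / 2 := by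
  have h1 := hc v w
  have h2 := hc v (-w)
  simp only [mulVec_neg, dotProduct_neg, neg_dotProduct, neg_neg] at h2
  rw [abs_le]
  constructor <;> linarith

/-- two contractions -/
lemma bound_two (hS : IsUnit S) {K L : Matrix (Fin N) (Fin N) ℝ}
    (hK : ∀ a b : Fin N → ℝ, 0 ≤ a ⬝ᵥ S *ᵥ a + 2 * (a ⬝ᵥ K *ᵥ b) + b ⬝ᵥ S *ᵥ b)
    (hL : ∀ a b : Fin N → ℝ, 0 ≤ a ⬝ᵥ S *ᵥ a + 2 * (a ⬝ᵥ L *ᵥ b) + b ⬝ᵥ S *ᵥ b)
    (u : Fin N → ℝ) : |u ⬝ᵥ (L * S⁻¹ * K) *ᵥ u| ≤ u ⬝ᵥ S *ᵥ u := by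
  set b := S⁻¹ *ᵥ (K *ᵥ u) with hb
  have hSd := (Matrix.isUnit_iff_isUnit_det _).1 hS
  have e1 : (L * S⁻¹ * K) *ᵥ u = L *ᵥ b := by
    rw [hb, mulVec_mulVec, mulVec_mulVec, Matrix.mul_assoc]
  have e2 : S *ᵥ b = K *ᵥ u := by
    rw [hb, mulVec_mulVec, mul_nonsing_inv _ hSd, one_mulVec]
  have h1 := hK (-b) u
  simp only [mulVec_neg, dotProduct_neg, neg_dotProduct, neg_neg] at h1
  rw [e2] at h1
  have h2 := bound_one hL u b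
  rw [e1]
  refine h2.trans ?_
  rw [e2]
  linarith

end

/-- the traces for `1/2 < H < 1` -/
theorem traces {H : ℝ} (h : 1 / 2 < H) (h1 : H < 1) (M k l : ℕ) (hk : 1 ≤ k) (hl : 1 ≤ l) :
    IsUnit (Sg (gam H) (M + 1)) ∧
    (-4 ≤ ((Sg (gam H) (M + 1))⁻¹ * Sh (gam H) (M + 1) k).trace ∧
      ((Sg (gam H) (M + 1))⁻¹ * Sh (gam H) (M + 1) k).trace ≤ 1) ∧
    (-9 ≤ ((Sg (gam H) (M + 1))⁻¹ * Sh (gam H) (M + 1) k *
        ((Sg (gam H) (M + 1))⁻¹ * Sh (gam H) (M + 1) l)).trace ∧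
      ((Sg (gam H) (M + 1))⁻¹ * Sh (gam H) (M + 1) k *
        ((Sg (gam H) (M + 1))⁻¹ * Sh (gam H) (M + 1) l)).trace ≤ 6) := by
  have hG := good_dlt h h1
  have hP := posDef (fun hj => dlt_nonpos h h1 hj) (phi_pos h h1) (gam_nonneg h h1)
    (dlt_one_neg h h1) (M + 1)
  have hC : ∀ k (a b : Fin (M + 1) → ℝ), 0 ≤ a ⬝ᵥ Sg (gam H) (M + 1) *ᵥ a
      + 2 * (a ⬝ᵥ Sh (gam H) (M + 1) k *ᵥ b) + b ⬝ᵥ Sg (gam H) (M + 1) *ᵥ b := fun k a b =>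
    contr (fun hj => dlt_nonpos h h1 hj) (phi_pos h h1) (gam_nonneg h h1) (M + 1) k a b
  have hU : IsUnit (Sg (gam H) (M + 1)) := hP.isUnit
  set S := Sg (gam H) (M + 1) with hS
  have hSd := (Matrix.isUnit_iff_isUnit_det _).1 hU
  have hT : Sᵀ = S := by
    have := hP.1
    rwa [Matrix.IsHermitian, conjTranspose_eq_transpose_of_trivial] at this
  set u : Fin (M + 1) → ℝ := S⁻¹ *ᵥ (fun _ => 1) with hu
  have hu1 : S *ᵥ u = fun _ => 1 := by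
    rw [hu, mulVec_mulVec, mul_nonsing_inv _ hSd, one_mulVec]
  have hτ : u ⬝ᵥ S *ᵥ u = ∑ i, u i := by
    rw [hu1]; simp [dotProduct]
  have hu0 : u ≠ 0 := by
    intro h0
    rw [h0, mulVec_zero] at hu1
    have := congrFun hu1 0
    simp at this
  have hτ0 : 0 < u ⬝ᵥ S *ᵥ u := by
    have := hP.dotProduct_mulVec_pos hu0
    simpa using this
  set τ := u ⬝ᵥ S *ᵥ u with hτdef
  have hZe : Pool.Agent.K4H47.FHRed.D M * S * (Pool.Agent.K4H47.FHRed.D M)ᵀ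
      = Pool.Agent.K4H30.FNA.T (dlt H) M := Pool.Agent.K4H47.FHRed.D_Sg (gam H) M
  have hKe : ∀ k, Pool.Agent.K4H47.FHRed.D M * Sh (gam H) (M + 1) k *
      (Pool.Agent.K4H47.FHRed.D M)ᵀ = Pool.Agent.K4H30.FNA.B (dlt H) M k := fun k =>
    Pool.Agent.K4H47.FHRed.D_Sh (gam H) M k
  have hZ : IsUnit (Pool.Agent.K4H47.FHRed.D M * S * (Pool.Agent.K4H47.FHRed.D M)ᵀ) := by
    rw [hZe]; exact Pool.Agent.K4H30.FNA.isUnit_T hG M
  have b1 : ∀ k, |τ⁻¹ * (u ⬝ᵥ Sh (gam H) (M + 1) k *ᵥ u)| ≤ 1 := by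
    intro k
    have := bound_one (hC k) u u
    rw [abs_mul, abs_of_pos (inv_pos.2 hτ0), inv_mul_le_iff₀ hτ0, mul_one]
    linarith
  have b2 : ∀ k l, |τ⁻¹ * (u ⬝ᵥ (Sh (gam H) (M + 1) l * S⁻¹ * Sh (gam H) (M + 1) k) *ᵥ u)| ≤ 1 := by
    intro k l
    have := bound_two hU (hC k) (hC l) u
    rw [abs_mul, abs_of_pos (inv_pos.2 hτ0), inv_mul_le_iff₀ hτ0, mul_one]
    exact this
  refine ⟨hU, ?_, ?_⟩
  · rw [Pool.Agent.K4H47.FHRed.trace_one S u τ hT hZ hu1 hτ.symm hτ0.ne', hZe, hKe]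
    have t := Pool.Agent.K4H30.FNA.trace1 hG M k hk
    have := abs_le.1 (b1 k)
    constructor <;> linarith
  · rw [Pool.Agent.K4H47.FHRed.trace_two S u τ hT hZ hu1 hτ.symm hτ0.ne', hZe, hKe, hKe]
    have t := Pool.Agent.K4H30.FNA.trace2 hG M k l hk hl
    have c1 := abs_le.1 (b2 k l)
    have c2 := abs_le.1 (b2 l k)
    have c3 : |τ⁻¹ * (u ⬝ᵥ Sh (gam H) (M + 1) k *ᵥ u) * (τ⁻¹ * (u ⬝ᵥ Sh (gam H) (M + 1) l *ᵥ u))|
        ≤ 1 := by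
      rw [abs_mul]
      have := mul_le_mul (b1 k) (b1 l) (abs_nonneg _) zero_le_one
      simpa using this
    have c3 := abs_le.1 c3
    constructor <;> linarith

lemma gam_eq : Pool.Agent.K4H30.FN.gam = gam := rfl

lemma A_eq (H : ℝ) {N k : ℕ} (hk : k ≤ N) :
    Pool.Agent.K4H30.FN.A H N k = (Sg (gam H) N)⁻¹ * Sh (gam H) N k := by
  have h1 : Pool.Agent.K4H30.FN.Sig H N = Sg (gam H) N := rfl
  have h2 : Pool.Agent.K4H30.FN.Pk N k * Pool.Agent.K4H30.FN.Sig H (2 * N) *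
      (Pool.Agent.K4H30.FN.Pk N 0).transpose = Sh (gam H) N k := by
    ext i j
    rw [Pool.Agent.K4H30.FN.shift_apply hk]
    rfl
  rw [Pool.Agent.K4H30.FN.A, h1, h2]

/-- the full answer -/
theorem main (H : ℝ) (h0 : 0 < H) (h1 : H < 1) (N k l : ℕ)
    (hk1 : 1 ≤ k) (hk : k ≤ N) (hl1 : 1 ≤ l) (hl : l ≤ N) :
    IsUnit (Pool.Agent.K4H30.FN.Sig H N) ∧
    |(Pool.Agent.K4H30.FN.A H N k).trace| ≤ 4 ∧
    |(Pool.Agent.K4H30.FN.A H N k * Pool.Agent.K4H30.FN.A H N l).trace| ≤ 9 := by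
  rcases le_or_gt H (1 / 2) with h | h
  · refine ⟨Pool.Agent.K4H30.FN.sig_isUnit h0 h N, ?_, ?_⟩
    · rw [Pool.Agent.K4H30.FN.trace_A h0 h hk1 hk, abs_le]
      have := Pool.Agent.K4H30.FN.sum_diag h0 h N k
      have h2 : 0 ≤ ∑ j ∈ Finset.range N,
          (if j < k then Pool.Agent.K4H30.FN.U H N (k - j) j else 0) := by
        apply Finset.sum_nonneg
        intro j _
        split_ifs
        · exact Pool.Agent.K4H30.FN.U_nonneg h0 h N (by omega) j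
        · exact le_rfl
      constructor <;> linarith
    · have := Pool.Agent.K4H30.FN.trace_mul h0 h hk1 hk hl1 hl
      rw [abs_le]
      constructor <;> linarith
  · obtain ⟨M, rfl⟩ : ∃ M, N = M + 1 := ⟨N - 1, by omega⟩
    have := traces h h1 M k l hk1 hl1
    rw [A_eq H hk, A_eq H hl, abs_le, abs_le]
    refine ⟨this.1, ⟨by linarith [this.2.1.1], by linarith [this.2.1.2]⟩,
      ⟨by linarith [this.2.2.1], by linarith [this.2.2.2]⟩⟩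

end Pool.Agent.K4H32.FA
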