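import Mathlib

/-!
Polya's criterion in finite form: an even kernel on the integers, nonnegative, decreasing and
convex on the positive half line, is positive semidefinite; contraction of the shift.
-/

namespace Pool.Agent.K4H32.FA

open Finset

/-- minus the second difference -/
def dl (g : ℤ → ℝ) (j : ℤ) : ℝ := 2 * g j - g (j + 1) - g (j - 1)

variable {g : ℤ → ℝ}

lemma rep (M : ℕ) : ∀ j : ℕ, j ≤ M + 1 →
    g j = g ((M : ℤ) + 1) + (g M - g ((M : ℤ) + 1)) * ((M + 1 - j : ℕ) : ℝ)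
      + ∑ m ∈ range M, (- dl g ((m : ℤ) + 1)) * ((m + 1 - j : ℕ) : ℝ) := by
  induction M with
  | zero =>
    intro j hj
    rcases Nat.le_one_iff_eq_zero_or_eq_one.1 hj with rfl | rfl
    · simp
    · simp
  | succ M ih =>
    intro j hj
    rw [sum_range_succ]
    rcases Nat.lt_or_ge j (M + 2) with h | h
    · have e1 : M + 1 + 1 - j = (M + 1 - j) + 1 := by omega
      have e2 := ih j (by omega)
      rw [e1]
      have e3 : dl g ((M : ℤ) + 1) = 2 * g ((M : ℤ) + 1) - g ((M : ℤ) + 1 + 1) - g (M : ℤ) := by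
        unfold dl
        rw [add_sub_cancel_right]
      rw [e3]
      push_cast at e2 ⊢
      linear_combination e2
    · obtain rfl : j = M + 2 := by omega
      have e1 : M + 1 + 1 - (M + 2) = 0 := by omega
      have e2 : M + 1 - (M + 2) = 0 := by omega
      rw [e1, e2]
      rw [sum_eq_zero]
      · push_cast
        simp only [mul_zero, add_zero]
        congr 1
      · intro m hm
        rw [mem_range] at hm
        have : m + 1 - (M + 2) = 0 := by omega
        rw [this]; simp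

lemma tri_card (L m a b : ℕ) (ha : a < L) (_hb : b < L) :
    ∑ t ∈ range (L + m), (if a ≤ t ∧ t < a + m then (1 : ℝ) else 0) *
      (if b ≤ t ∧ t < b + m then (1 : ℝ) else 0) = ((m - ((a : ℤ) - b).natAbs : ℕ) : ℝ) := by
  have e : ∀ t ∈ range (L + m), (if a ≤ t ∧ t < a + m then (1 : ℝ) else 0) *
      (if b ≤ t ∧ t < b + m then (1 : ℝ) else 0)
      = if max a b ≤ t ∧ t < min a b + m then 1 else 0 := by
    intro t _
    by_cases h1 : a ≤ t ∧ t < a + m <;> by_cases h2 : b ≤ t ∧ t < b + m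
    · rw [if_pos h1, if_pos h2, if_pos (by omega), one_mul]
    · rw [if_neg h2, mul_zero, if_neg (by omega)]
    · rw [if_neg h1, zero_mul, if_neg (by omega)]
    · rw [if_neg h1, zero_mul, if_neg (by omega)]
  rw [sum_congr rfl e, ← sum_filter, sum_const, nsmul_eq_mul, mul_one]
  congr 1
  have : (range (L + m)).filter (fun t => max a b ≤ t ∧ t < min a b + m)
      = Ico (max a b) (min a b + m) := by
    ext t; simp only [mem_filter, mem_range, mem_Ico]; omega
  rw [this, Nat.card_Ico]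
  omega

lemma tri_sum {ι : Type*} [Fintype ι] (L m : ℕ) (p : ι → ℕ) (hp : ∀ i, p i < L) (x : ι → ℝ) :
    ∑ i, ∑ j, ((m - ((p i : ℤ) - p j).natAbs : ℕ) : ℝ) * (x i * x j)
      = ∑ t ∈ range (L + m), (∑ i, (if p i ≤ t ∧ t < p i + m then (1 : ℝ) else 0) * x i) ^ 2 := by
  have e : ∀ t ∈ range (L + m), (∑ i, (if p i ≤ t ∧ t < p i + m then (1 : ℝ) else 0) * x i) ^ 2
      = ∑ i, ∑ j, (if p i ≤ t ∧ t < p i + m then (1 : ℝ) else 0) *
      (if p j ≤ t ∧ t < p j + m then (1 : ℝ) else 0) * (x i * x j) := by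
    intro t _
    rw [sq, sum_mul_sum]
    apply sum_congr rfl
    intro i _
    apply sum_congr rfl
    intro j _
    ring
  rw [sum_congr rfl e]
  symm
  rw [sum_comm]
  apply sum_congr rfl
  intro i _
  rw [sum_comm]
  apply sum_congr rfl
  intro j _
  rw [← sum_mul, tri_card L m _ _ (hp i) (hp j)]

/-- Polya -/
lemma quad_ge (hev : ∀ j, g (-j) = g j) (hg : ∀ n : ℕ, 0 ≤ g n)
    (hφ : ∀ n : ℕ, g ((n : ℤ) + 1) ≤ g n) (hd : ∀ n : ℕ, dl g ((n : ℤ) + 1) ≤ 0)
    {ι : Type*} [Fintype ι] (p : ι → ℕ) (x : ι → ℝ) :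
    (- dl g 1) * ∑ i, ∑ j, ((1 - ((p i : ℤ) - p j).natAbs : ℕ) : ℝ) * (x i * x j)
      ≤ ∑ i, ∑ j, g ((p i : ℤ) - p j) * (x i * x j) := by
  obtain ⟨L, hL⟩ : ∃ L : ℕ, ∀ i, p i < L := by
    refine ⟨∑ i, p i + 1, fun i => ?_⟩
    have := single_le_sum (f := p) (fun _ _ => Nat.zero_le _) (mem_univ i)
    omega
  set M := L + 1 with hM
  have e1 : ∀ i j, g ((p i : ℤ) - p j) = g ((M : ℤ) + 1)
      + (g M - g ((M : ℤ) + 1)) * ((M + 1 - ((p i : ℤ) - p j).natAbs : ℕ) : ℝ)
      + ∑ m ∈ range M, (- dl g ((m : ℤ) + 1)) *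
        ((m + 1 - ((p i : ℤ) - p j).natAbs : ℕ) : ℝ) := by
    intro i j
    have h1 := hL i
    have h2 := hL j
    have := rep (g := g) M ((p i : ℤ) - p j).natAbs (by omega)
    rw [← this]
    rcases Int.natAbs_eq ((p i : ℤ) - p j) with h | h
    · rw [← h]
    · have h' : ((((p i : ℤ) - p j).natAbs : ℕ) : ℤ) = -((p i : ℤ) - p j) := by omega
      rw [h', hev]
  have e2 : ∑ i, ∑ j, g ((p i : ℤ) - p j) * (x i * x j)
      = g ((M : ℤ) + 1) * (∑ i, x i) ^ 2
        + (g M - g ((M : ℤ) + 1)) *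
          ∑ i, ∑ j, ((M + 1 - ((p i : ℤ) - p j).natAbs : ℕ) : ℝ) * (x i * x j)
        + ∑ m ∈ range M, (- dl g ((m : ℤ) + 1)) *
          ∑ i, ∑ j, ((m + 1 - ((p i : ℤ) - p j).natAbs : ℕ) : ℝ) * (x i * x j) := by
    have e3 : ∀ i j, g ((p i : ℤ) - p j) * (x i * x j)
        = g ((M : ℤ) + 1) * (x i * x j)
        + (g M - g ((M : ℤ) + 1)) *
          (((M + 1 - ((p i : ℤ) - p j).natAbs : ℕ) : ℝ) * (x i * x j))
        + ∑ m ∈ range M, (- dl g ((m : ℤ) + 1)) *
          (((m + 1 - ((p i : ℤ) - p j).natAbs : ℕ) : ℝ) * (x i * x j)) := by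
      intro i j
      rw [e1 i j, add_mul, add_mul, sum_mul]
      congr 1
      · ring
      · apply sum_congr rfl
        intro m _
        ring
    simp only [e3, sum_add_distrib]
    congr 1
    · congr 1
      · rw [sq, sum_mul_sum, mul_sum]
        apply sum_congr rfl
        intro i _
        rw [mul_sum]
      · rw [mul_sum]
        apply sum_congr rfl
        intro i _
        rw [mul_sum]
    · simp only [mul_sum]
      symm
      rw [sum_comm]
      apply sum_congr rfl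
      intro i _
      rw [sum_comm]
  rw [e2]
  have q : ∀ m : ℕ, 0 ≤ ∑ i, ∑ j, ((m - ((p i : ℤ) - p j).natAbs : ℕ) : ℝ) * (x i * x j) := by
    intro m
    rw [tri_sum L m p hL x]
    exact sum_nonneg fun _ _ => sq_nonneg _
  have t1 : 0 ≤ g ((M : ℤ) + 1) * (∑ i, x i) ^ 2 :=
    mul_nonneg (by exact_mod_cast hg (M + 1)) (sq_nonneg _)
  have t2 := mul_nonneg (sub_nonneg.2 (hφ M)) (q (M + 1))
  have t3 : (- dl g 1) * ∑ i, ∑ j, ((1 - ((p i : ℤ) - p j).natAbs : ℕ) : ℝ) * (x i * x j)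
      ≤ ∑ m ∈ range M, (- dl g ((m : ℤ) + 1)) *
          ∑ i, ∑ j, ((m + 1 - ((p i : ℤ) - p j).natAbs : ℕ) : ℝ) * (x i * x j) := by
    have := single_le_sum (s := range M) (f := fun m : ℕ => (- dl g ((m : ℤ) + 1)) *
          ∑ i, ∑ j, ((m + 1 - ((p i : ℤ) - p j).natAbs : ℕ) : ℝ) * (x i * x j))
      (fun m _ => mul_nonneg (by have := hd m; linarith) (q (m + 1)))
      (mem_range.2 (show 0 < M by omega))
    simpa using this
  linarith

end Pool.Agent.K4H32.FA
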